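import Mathlib
import Pool.Agent.V11310.CL.Clusters

set_option autoImplicit false

/-!
# Non-speciality for the closure of the known classes under collisions, and clusters

Let `m 1, …, m s` be ANY multiplicities at general points of the complex projective plane.

`Reached N0 d w` (`Pool.Agent.V11310.CL.Reached`): the multiset of the multiplicities `w` belongs, in
degree `d`, to the smallest class of multisets of multiplicities with one of the two signs (no curves,
independent conditions) which contains the comparable, the large and the good classes (`Base`) and is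
closed under collisions (a point of multiplicity `μ` may be replaced by points `M'` if `M'` is in the
class in degree `μ - 1`), quadratic transformations, doubling (four points of multiplicity `m` for one
point of the multiplicities `2 m` and `2 m + 1`), adding or removing points and changing the degree.

(1) The system of degree `d` is non-special if `(d; m)` is reached, or if `s ≥ 4` and finitely many
reflections carry it to a standard class which is reached.

(2), (3) Clusters. Let `S 1, …, S k` be disjoint sets of the points, `1 ≤ a j`, `1 ≤ μ`, where each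
`S j` is one point or a number of points `≥ 37`, or `21`, or a square `≥ 10`, or `≥ 10` with
`a j + 1 ≤ |S j| - 6 √|S j| + 11`, and the same for `k` and `μ`.
If `m i ≥ a j` on `S j`, `|S j| a j (a j + 1) ≥ μ (μ + 1)` and `k μ (μ + 1) ≥ (d + 1) (d + 2)`, then the
system is empty and non-special (nothing is assumed at the points outside of the `S j`). If the `S j`
cover all the points, `m i ≤ a j` on `S j`, `|S j| a j (a j + 1) ≤ μ (μ + 1)` and
`k μ (μ + 1) ≤ (d + 1) (d + 2)`, then it is non-special.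
-/

namespace Pool.Agent.Results.MP_d3128a_ag.CollisionClosure

open MvPolynomial
open Pool.Agent.V11310.CL

/-- Forms of degree `d` vanishing to order at least `m i` at the points `(P i 0 : P i 1 : 1)`. -/
noncomputable def forms {s : ℕ} (P : Fin s → Fin 2 → ℂ) (d : ℕ) (m : Fin s → ℕ) :
    Submodule ℂ (MvPolynomial (Fin 3) ℂ) :=
  homogeneousSubmodule (Fin 3) ℂ d ⊓
    Submodule.restrictScalars ℂ
      (⨅ i : Fin s, (Ideal.span {X 0 - C (P i 0) * X 2, X 1 - C (P i 1) * X 2} :
        Ideal (MvPolynomial (Fin 3) ℂ)) ^ (m i))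

/-- The (vector space) dimension is the expected one. -/
def NonSpecial {s : ℕ} (P : Fin s → Fin 2 → ℂ) (d : ℕ) (m : Fin s → ℕ) : Prop :=
  (Module.finrank ℂ ↥(forms P d m) : ℤ) =
    max 0 (((d + 2).choose 2 : ℤ) - ∑ i, ((m i + 1).choose 2 : ℤ))

/-- The property holds for all `s`-tuples of points outside some hypersurface. -/
def ForGeneral {s : ℕ} (p : (Fin s → Fin 2 → ℂ) → Prop) : Prop :=
  ∃ F : MvPolynomial (Fin s × Fin 2) ℂ, F ≠ 0 ∧ ∀ P : Fin s → Fin 2 → ℂ,
    eval (fun ij : Fin s × Fin 2 => P ij.1 ij.2) F ≠ 0 → p P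

theorem nonSpecial_of {s : ℕ} {P : Fin s → Fin 2 → ℂ} {d : ℕ} {m : Fin s → ℕ}
    (h : Pool.Agent.H932R3.ExpDim ℂ m P d) : NonSpecial P d m := by
  unfold Pool.Agent.H932R3.ExpDim at h
  unfold NonSpecial forms
  rw [h]
  have e : ∑ i, ((m i + 1).choose 2 : ℤ) = ((∑ i, (m i + 1).choose 2 : ℕ) : ℤ) := by
    push_cast
    rfl
  rw [e]
  omega

theorem result : ∃ N0 : ℕ, ∀ (s d : ℕ) (m : Fin s → ℕ),
    (Base N0 d m → Reached N0 d m) ∧
    (Reached N0 d m ∨ (4 ≤ s ∧ Covered N0 d m) → ForGeneral fun P => NonSpecial P d m) ∧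
    (∀ (k : ℕ) (S : Fin k → Finset (Fin s)) (a : Fin k → ℕ) (μ : ℕ), 1 ≤ μ → Ok k μ →
      (∀ i j, i ≠ j → Disjoint (S i) (S j)) → (∀ j, 1 ≤ a j) →
      (∀ j, (S j).card = 1 ∨ Ok (S j).card (a j)) →
      (∀ j, ∀ i ∈ S j, a j ≤ m i) →
      (∀ j, μ * (μ + 1) ≤ (S j).card * (a j * (a j + 1))) →
      (d + 1) * (d + 2) ≤ k * (μ * (μ + 1)) →
      Reached N0 d m ∧ ForGeneral fun P => NonSpecial P d m ∧ forms P d m = ⊥) ∧
    (∀ (k : ℕ) (S : Fin k → Finset (Fin s)) (a : Fin k → ℕ) (μ : ℕ), 1 ≤ μ → Ok k μ →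
      (∀ i j, i ≠ j → Disjoint (S i) (S j)) → (∀ i, ∃ j, i ∈ S j) → (∀ j, 1 ≤ a j) →
      (∀ j, (S j).card = 1 ∨ Ok (S j).card (a j)) →
      (∀ j, ∀ i ∈ S j, m i ≤ a j) →
      (∀ j, (S j).card * (a j * (a j + 1)) ≤ μ * (μ + 1)) →
      k * (μ * (μ + 1)) ≤ (d + 1) * (d + 2) →
      Reached N0 d m ∧ ForGeneral fun P => NonSpecial P d m) := by
  obtain ⟨N0, hN0⟩ := Pool.Agent.Y939.NC.reg_exp
  refine ⟨N0, fun s d m => ?_⟩
  have hA : Reached N0 d m ∨ (4 ≤ s ∧ Covered N0 d m) →
      ForGeneral fun P => NonSpecial P d m := by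
    intro h
    obtain ⟨F, hF, hF'⟩ := Pool.Agent.TH442.NF.to_open (d := d) (w := m)
      fun {_ _ _ P} hP => h.elim (fun h => reached_exp hN0 h hP)
        fun h => covered_exp hN0 h.1 h.2 hP
    refine ⟨F.map (algebraMap ℚ ℂ), Pool.Agent.H932R3.map_ne_zero_of hF, fun P hP => ?_⟩
    rw [MvPolynomial.eval_map] at hP
    exact nonSpecial_of (hF' (L := ℂ) P hP)
  refine ⟨reached_of_base, hA, fun k S a μ hμ hk hdis ha hok hm hS hd => ?_,
    fun k S a μ hμ hk hdis hcov ha hok hm hS hd => ?_⟩
  · have hcl : Closure N0 Side.none d ((Finset.univ : Finset (Fin s)).val.map m) :=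
      two_level_none m S a hμ hk hdis ha hok hm hS hd
    refine ⟨Or.inl hcl, ?_⟩
    obtain ⟨F, hF, hF'⟩ := hA (Or.inl (Or.inl hcl))
    refine ⟨F, hF, fun P hP => ⟨hF' P hP, ?_⟩⟩
    have h2 := hF' P hP
    unfold NonSpecial at h2
    have h3 : (d + 2).choose 2 ≤ ∑ i, (m i + 1).choose 2 := (means_iff.1 (closure_means hN0 hcl)).2
    have h4 : ((d + 2).choose 2 : ℤ) - ∑ i, ((m i + 1).choose 2 : ℤ) ≤ 0 := by
      have e : ∑ i, ((m i + 1).choose 2 : ℤ) = ((∑ i, (m i + 1).choose 2 : ℕ) : ℤ) := by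
        push_cast
        rfl
      rw [e]
      omega
    rw [max_eq_left h4] at h2
    have hfin : Module.Finite ℂ ↥(forms P d m) := Pool.Agent.Y536.SH.forms_fin m P d
    exact Submodule.finrank_eq_zero.1 (by exact_mod_cast h2)
  · have hcl : Closure N0 Side.indep d ((Finset.univ : Finset (Fin s)).val.map m) :=
      two_level_indep m S a hμ hk hdis hcov ha hok hm hS hd
    exact ⟨Or.inr hcl, hA (Or.inl (Or.inr hcl))⟩

end Pool.Agent.Results.MP_d3128a_ag.CollisionClosure
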