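import Mathlib
import Pool.Agent.V11263.SH.Comp

set_option autoImplicit false

/-!
# Non-speciality of all systems comparable, from above or below, with a regular vector

Let `m 1, …, m s` be ANY multiplicities at general points of the complex projective plane.

(1) The system of the curves of degree `d` is non-special if, for a vector `v` regular in degree `d`
(`Pool.Agent.V11263.SH.RegularAt`) on some `k` of the points, either `m ≥ v` there and
`χ (d; v) ≤ 0` (no condition at the other points; the system is empty), or `m ≤ v` there, `m ≤ 1` at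
the other points, and `χ (d; v) ≥ 0` or `m = v` there.

(2), (3) The special case of constant vectors. Let `S` be a set of `k` of the points, where `k ≥ 37`,
or `k = 21`, or `k ≥ 10` is a square, or `k ≥ 10` and `μ + 1 ≤ k - 6 √k + 11`; `μ ≥ 1`. If
`m i ≥ μ` on `S` and `(d + 1) (d + 2) ≤ k μ (μ + 1)`, then the system is empty and non-special. If
`m i ≤ μ` on `S`, `m i ≤ 1` outside `S` and `k μ (μ + 1) ≤ (d + 1) (d + 2)`, then it is non-special.
-/

namespace Pool.Agent.Results.MP_d3128a_ag.ComparableSystems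

open MvPolynomial
open Pool.Agent.V11263.SH (Comparable)

/-- Forms of degree `d` vanishing to order at least `m i` at the points `(P i 0 : P i 1 : 1)`. -/
noncomputable def forms {s : ℕ} (P : Fin s → Fin 2 → ℂ) (d : ℕ) (m : Fin s → ℕ) :
    Submodule ℂ (MvPolynomial (Fin 3) ℂ) :=
  homogeneousSubmodule (Fin 3) ℂ d ⊓
    Submodule.restrictScalars ℂ
      (⨅ i : Fin s, (Ideal.span {X 0 - C (P i 0) * X 2, X 1 - C (P i 1) * X 2} :
        Ideal (MvPolynomial (Fin 3) ℂ)) ^ (m i))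

/-- The (vector space) dimension is the expected one. -/
def NonSpecial {s : ℕ} (P : Fin s → Fin 2 → ℂ) (d : ℕ) (m : Fin s → ℕ) : Prop :=
  (Module.finrank ℂ ↥(forms P d m) : ℤ) =
    max 0 (((d + 2).choose 2 : ℤ) - ∑ i, ((m i + 1).choose 2 : ℤ))

/-- The property holds for all `s`-tuples of points outside some hypersurface. -/
def ForGeneral {s : ℕ} (p : (Fin s → Fin 2 → ℂ) → Prop) : Prop :=
  ∃ F : MvPolynomial (Fin s × Fin 2) ℂ, F ≠ 0 ∧ ∀ P : Fin s → Fin 2 → ℂ,
    eval (fun ij : Fin s × Fin 2 => P ij.1 ij.2) F ≠ 0 → p P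

/-- The numbers `k` of points and the multiplicities `μ` to which (2) and (3) apply. -/
def Ok (k μ : ℕ) : Prop :=
  37 ≤ k ∨ k = 21 ∨ (10 ≤ k ∧ (IsSquare k ∨ ((μ + 1 : ℕ) : ℝ) ≤ k - 6 * √(k : ℝ) + 11))

theorem nonSpecial_of {s : ℕ} {P : Fin s → Fin 2 → ℂ} {d : ℕ} {m : Fin s → ℕ}
    (h : Pool.Agent.H932R3.ExpDim ℂ m P d) : NonSpecial P d m := by
  unfold Pool.Agent.H932R3.ExpDim at h
  unfold NonSpecial forms
  rw [h]
  have e : ∑ i, ((m i + 1).choose 2 : ℤ) = ((∑ i, (m i + 1).choose 2 : ℕ) : ℤ) := by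
    push_cast
    rfl
  rw [e]
  omega

theorem two_choose (n : ℕ) : 2 * (n + 1).choose 2 = n * (n + 1) := by
  rw [Nat.choose_two_right, Nat.add_sub_cancel, mul_comm (n + 1) n,
    Nat.mul_div_cancel' (Nat.even_mul_succ_self n).two_dvd]

theorem regularAt_const {N0 d k μ : ℕ} (hμ : 1 ≤ μ) (h : Ok k μ) :
    Pool.Agent.V11263.SH.RegularAt N0 d (fun _ : Fin k => μ) := by
  rcases h with h | h | ⟨h, h' | h'⟩
  · exact Or.inl (Or.inl ⟨Or.inl h, μ, hμ, fun _ => rfl⟩)
  · exact Or.inl (Or.inl ⟨Or.inr h, μ, hμ, fun _ => rfl⟩)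
  · exact Or.inr (Or.inl ⟨h, μ, hμ, fun _ => Or.inl rfl, Or.inr (Or.inl h')⟩)
  · exact Or.inr (Or.inl ⟨h, μ, hμ, fun _ => Or.inl rfl, Or.inl h'⟩)

theorem exists_emb {s : ℕ} (S : Finset (Fin s)) :
    ∃ e : Fin S.card ↪ Fin s, Set.range e = ↑S := by
  refine ⟨(S.orderEmbOfFin rfl).toEmbedding, ?_⟩
  exact Finset.range_orderEmbOfFin S rfl

theorem result : ∃ N0 : ℕ, ∀ (s d : ℕ) (m : Fin s → ℕ),
    (Comparable N0 d m → ForGeneral fun P => NonSpecial P d m) ∧
    (∀ (S : Finset (Fin s)) (μ : ℕ), 1 ≤ μ → Ok S.card μ → (∀ i ∈ S, μ ≤ m i) →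
      (d + 1) * (d + 2) ≤ S.card * (μ * (μ + 1)) →
      ForGeneral fun P => NonSpecial P d m ∧ forms P d m = ⊥) ∧
    (∀ (S : Finset (Fin s)) (μ : ℕ), 1 ≤ μ → Ok S.card μ → (∀ i ∈ S, m i ≤ μ) →
      (∀ i ∉ S, m i ≤ 1) → S.card * (μ * (μ + 1)) ≤ (d + 1) * (d + 2) →
      ForGeneral fun P => NonSpecial P d m) := by
  obtain ⟨N0, hN0⟩ := Pool.Agent.Y939.NC.reg_exp
  refine ⟨N0, fun s d m => ?_⟩
  have hA : Comparable N0 d m → ForGeneral fun P => NonSpecial P d m := by
    intro h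
    obtain ⟨F, hF, hF'⟩ := Pool.Agent.TH442.NF.to_open (d := d) (w := m)
      fun {_ _ _ P} hP => Pool.Agent.V11263.SH.comparable_exp hN0 h hP
    refine ⟨F.map (algebraMap ℚ ℂ), Pool.Agent.H932R3.map_ne_zero_of hF, fun P hP => ?_⟩
    rw [MvPolynomial.eval_map] at hP
    exact nonSpecial_of (hF' (L := ℂ) P hP)
  refine ⟨hA, fun S μ hμ hk hS hd => ?_, fun S μ hμ hk hS h1 hd => ?_⟩
  · obtain ⟨e, he⟩ := exists_emb S
    have hmem : ∀ j, e j ∈ S := fun j => by
      have : e j ∈ Set.range e := ⟨j, rfl⟩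
      rw [he] at this
      exact this
    have hc : (d + 2).choose 2 ≤ ∑ _j : Fin S.card, (μ + 1).choose 2 := by
      rw [Finset.sum_const, Finset.card_univ, Fintype.card_fin, smul_eq_mul]
      have a1 : 2 * (d + 2).choose 2 = (d + 1) * (d + 2) := two_choose (d + 1)
      have a2 := two_choose μ
      have a3 : S.card * (μ * (μ + 1)) = 2 * (S.card * (μ + 1).choose 2) := by
        rw [← a2]; ring
      omega
    have hcomp : Comparable N0 d m :=
      ⟨S.card, e, fun _ => μ, regularAt_const hμ hk, Or.inl ⟨fun j => hS _ (hmem j), hc⟩⟩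
    obtain ⟨F, hF, hF'⟩ := hA hcomp
    refine ⟨F, hF, fun P hP => ⟨hF' P hP, ?_⟩⟩
    have h2 := hF' P hP
    unfold NonSpecial at h2
    have h3 : (d + 2).choose 2 ≤ ∑ i, (m i + 1).choose 2 := by
      refine hc.trans ?_
      calc ∑ _j : Fin S.card, (μ + 1).choose 2 ≤ ∑ j, (m (e j) + 1).choose 2 :=
            Finset.sum_le_sum fun j _ => Nat.choose_le_choose 2 (by have := hS _ (hmem j); omega)
        _ ≤ ∑ i, (m i + 1).choose 2 := by
            rw [← Finset.sum_map Finset.univ e fun i => (m i + 1).choose 2]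
            exact Finset.sum_le_sum_of_subset (Finset.subset_univ _)
    have h4 : ((d + 2).choose 2 : ℤ) - ∑ i, ((m i + 1).choose 2 : ℤ) ≤ 0 := by
      have e : ∑ i, ((m i + 1).choose 2 : ℤ) = ((∑ i, (m i + 1).choose 2 : ℕ) : ℤ) := by
        push_cast
        rfl
      rw [e]
      omega
    rw [max_eq_left h4] at h2
    have hfin : Module.Finite ℂ ↥(forms P d m) := Pool.Agent.Y536.SH.forms_fin m P d
    exact Submodule.finrank_eq_zero.1 (by exact_mod_cast h2)
  · obtain ⟨e, he⟩ := exists_emb S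
    have hmem : ∀ j, e j ∈ S := fun j => by
      have : e j ∈ Set.range e := ⟨j, rfl⟩
      rw [he] at this
      exact this
    have hc : ∑ _j : Fin S.card, (μ + 1).choose 2 ≤ (d + 2).choose 2 := by
      rw [Finset.sum_const, Finset.card_univ, Fintype.card_fin, smul_eq_mul]
      have a1 : 2 * (d + 2).choose 2 = (d + 1) * (d + 2) := two_choose (d + 1)
      have a2 := two_choose μ
      have a3 : S.card * (μ * (μ + 1)) = 2 * (S.card * (μ + 1).choose 2) := by
        rw [← a2]; ring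
      omega
    exact hA ⟨S.card, e, fun _ => μ, regularAt_const hμ hk, Or.inr ⟨fun j => hS _ (hmem j),
      fun i hi => h1 i (fun h => hi (by rw [he]; exact h)), Or.inr hc⟩⟩

end Pool.Agent.Results.MP_d3128a_ag.ComparableSystems
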