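import Pool.Agent.Results.MP_8707bd_ag.PrimeMultiplicities
import Pool.Agent.Results.MP_d3128a_ag.AllNumbersNearUniform

/-!
# Non-speciality in ALL degrees for near-uniform vectors whose sum is prime, or the value of a polynomial

A vector of `n` positive multiplicities is near-uniform if it takes two consecutive values `m`, `m + 1`;
up to the order it is determined by its sum `W`, which may be any integer `W ≥ n`. The hand-in
`AllNumbersNearUniform` of this problem shows: for non-square `n ≥ 10`, all the near-uniform systems of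
sum `W` are non-special in EVERY degree, for all `W` outside a set of upper density at most
`bad n < 1`. (There are no exceptional `W` if `4 ∣ n`, `n ≥ 144`, or if `n ≥ N0`, `N0` an absolute
constant which is not explicit: `MP_70e04f_ag/NearUniformEveryDegree`.)

This says nothing about thin sets of sums. Here the same bounds are proved for the proportion of the
exceptional terms of every sequence whose multiples by any irrational number have exponential sums
`o(N)`: in particular for the prime numbers and for the values of the nonconstant polynomials with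
integral coefficients.
-/

set_option autoImplicit false

open Filter Topology Finset

namespace Pool.Agent.Results.MP_d3128a_ag.PrimeSums

open Pool.Agent.Results.MP_d3128a_ag.AllNumbersNearUniform (bad nonSpecial_of sum_eq)
open Pool.Agent.Results.MP_8707bd_ag

/-- the multiples of the sequence by every irrational number have exponential sums `o(N)` -/
def Equidistributed (s : ℕ → ℕ) : Prop := ∀ t : ℝ, Irrational t →
  Tendsto (fun N : ℕ => ‖∑ k ∈ range N, Complex.exp (2 * Real.pi * Complex.I * (t * (s k : ℝ) : ℝ))‖ / N)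
    atTop (𝓝 0)

/-- the number of the `k < N` for which not all the near-uniform systems of curves with positive
multiplicities of sum `s k` at `n` general points are non-special in all degrees -/
noncomputable def exceptions (n : ℕ) (s : ℕ → ℕ) (N : ℕ) : ℕ :=
  Set.ncard {k : ℕ | k < N ∧ ¬ AllNumbersNearUniform.Good n (s k)}

lemma window {n : ℕ} {A B : ℝ} (h01 : (A + B) / 2 < 1)
    (h : ∀ W : ℕ, ¬ AllNumbersNearUniform.Good n W →
      ∃ d : ℕ, -A ≤ 2 * (d : ℝ) + 3 - (Real.sqrt n + 2 * (W : ℝ) / Real.sqrt n) ∧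
        2 * (d : ℝ) + 3 - (Real.sqrt n + 2 * (W : ℝ) / Real.sqrt n) ≤ B) (W : ℕ)
    (hb : ¬ AllNumbersNearUniform.Good n W) :
    Int.fract ((Real.sqrt n)⁻¹ * W + ((Real.sqrt n - 3) / 2 + B / 2)) ≤ (A + B) / 2 := by
  obtain ⟨d, h1, h2⟩ := h W hb
  have e : 2 * (W : ℝ) / Real.sqrt n = 2 * ((Real.sqrt n)⁻¹ * W) := by
    rw [div_eq_mul_inv]
    ring
  rw [e] at h1 h2
  have h3 : 0 ≤ (Real.sqrt n)⁻¹ * W + ((Real.sqrt n - 3) / 2 + B / 2) - d := by linarith
  have h4 : (Real.sqrt n)⁻¹ * W + ((Real.sqrt n - 3) / 2 + B / 2) - d ≤ (A + B) / 2 := by linarith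
  have h5 : Int.fract ((Real.sqrt n)⁻¹ * W + ((Real.sqrt n - 3) / 2 + B / 2)) =
      (Real.sqrt n)⁻¹ * W + ((Real.sqrt n - 3) / 2 + B / 2) - d := by
    rw [Int.fract_eq_iff]
    exact ⟨h3, by linarith, (d : ℤ), by push_cast; ring⟩
  rw [h5]
  exact h4

lemma count_le {s : ℕ → ℕ} (hs : Equidistributed s) {n : ℕ} (hn : ¬ IsSquare n) {A B : ℝ}
    (hAB : 0 ≤ (A + B) / 2) (h01 : (A + B) / 2 < 1)
    (h : ∀ W : ℕ, ¬ AllNumbersNearUniform.Good n W →
      ∃ d : ℕ, -A ≤ 2 * (d : ℝ) + 3 - (Real.sqrt n + 2 * (W : ℝ) / Real.sqrt n) ∧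
        2 * (d : ℝ) + 3 - (Real.sqrt n + 2 * (W : ℝ) / Real.sqrt n) ≤ B) {δ : ℝ} (hδ : 0 < δ) :
    ∀ᶠ N : ℕ in atTop, (exceptions n s N : ℝ) ≤ ((A + B) / 2 + δ) * N := by
  classical
  have hirr : Irrational ((Real.sqrt n)⁻¹) := (irrational_sqrt_natCast_iff.2 hn).inv
  have h1 := Pool.Agent.H534R3.UDist.upper (fun k => (Real.sqrt n)⁻¹ * (s k : ℝ) +
    ((Real.sqrt n - 3) / 2 + B / 2)) (PrimeMultiplicities.weyl_of (s := s) hs hirr _) 0
      ((A + B) / 2 + δ / 2) (δ / 2) (by linarith) (by linarith)
  filter_upwards [h1] with N hN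
  have h2 : exceptions n s N ≤ Pool.Agent.H534R3.UDist.cnt (fun k => (Real.sqrt n)⁻¹ * (s k : ℝ) +
      ((Real.sqrt n - 3) / 2 + B / 2)) 0 ((A + B) / 2 + δ / 2) N := by
    unfold exceptions Pool.Agent.H534R3.UDist.cnt
    rw [← Set.ncard_coe_finset]
    refine Set.ncard_le_ncard (fun k hk => ?_) (Finset.finite_toSet _)
    obtain ⟨hk1, hk2⟩ := hk
    rw [Finset.mem_coe, Finset.mem_filter, Finset.mem_range]
    exact ⟨hk1, Int.fract_nonneg _, (window h01 h (s k) hk2).trans_lt (by linarith)⟩
  calc (exceptions n s N : ℝ) ≤ _ := by exact_mod_cast h2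
    _ ≤ _ := hN
    _ = ((A + B) / 2 + δ) * N := by ring

/-- **Main theorem.** (1) `bad n < 1` for `n ≥ 10`. (2) Let `s` be an equidistributed sequence and let
`n ≥ 10` not be a square. For all but at most `(bad n + δ) N` of the first `N` terms `W` of the sequence
all the near-uniform systems of sum `W` with positive multiplicities at `n` general points are
non-special in ALL degrees. (3) The sequence of the primes and the sequences of the values of
nonconstant polynomials with integral coefficients (with values `≥ 0`) are equidistributed. -/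
theorem result :
    (∀ n : ℕ, 10 ≤ n → bad n < 1) ∧
    (∀ s : ℕ → ℕ, Equidistributed s → ∀ n : ℕ, 10 ≤ n → ¬ IsSquare n → ∀ δ : ℝ, 0 < δ →
      ∀ᶠ N : ℕ in atTop, (exceptions n s N : ℝ) ≤ (bad n + δ) * N) ∧
    Equidistributed (Nat.nth Nat.Prime) ∧
    (∀ q : Polynomial ℤ, 0 < q.natDegree → ∀ s : ℕ → ℕ, (∀ k : ℕ, (s k : ℤ) = q.eval (k : ℤ)) →
      Equidistributed s) := by
  obtain ⟨-, hbad, -⟩ := AllNumbersNearUniform.result
  refine ⟨hbad, fun s hs n hn hsq δ hδ => ?_, PrimeMultiplicities.good_primes,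
    PrimeMultiplicities.good_polynomial⟩
  obtain ⟨h1, h2, h3⟩ := Pool.Agent.TH885.NW.win_len hn
  have h4 : (Pool.Agent.TH885.NW.loW n + Pool.Agent.TH885.NW.upW n) / 2 = bad n := rfl
  have h5 := count_le hs hsq (A := Pool.Agent.TH885.NW.loW n) (B := Pool.Agent.TH885.NW.upW n)
    (by linarith) (by linarith) (fun W hb => by
      by_contra hcon
      push Not at hcon
      apply hb
      intro m hm w hw hsum
      obtain ⟨F, hF, hF'⟩ := Pool.Agent.TH885.NW.exp_near2 (L := ℂ) hn hm hw
      refine nonSpecial_of ⟨F, hF, fun P hP d => hF' P hP d ?_⟩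
      rw [sum_eq hsum]
      rcases le_or_gt (-Pool.Agent.TH885.NW.loW n)
        (2 * (d : ℝ) + 3 - (Real.sqrt n + 2 * (W : ℝ) / Real.sqrt n)) with h4 | h4
      · exact Or.inl (hcon d h4)
      · exact Or.inr h4) hδ
  rwa [h4] at h5

end Pool.Agent.Results.MP_d3128a_ag.PrimeSums
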